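import Pool.Agent.H914R2.LefDefs
import Pool.Agent.H914R2.KDefs
import Pool.Agent.Y133.Half.PairDefs

/-!
# The classes generated by the algebraic classes and the class of `Λ`: definitions
-/

set_option autoImplicit false

open CategoryTheory AlgebraicGeometry

universe u v

namespace Pool.Agent.Q82.MH

open Pool.Agent.H914 Pool.Agent.H914.VarClass Pool.Agent.H914.VarClass.Obj
  Pool.Agent.H914.WeilCohomology

variable {k : Type u} [Field k] {𝒱 : VarClass k} {ops : CycleOps 𝒱}

/-- `τ` is the class of degree `2 (n - 1)` on `X × X`, `n = dim X`, which induces the operator `Λ`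
attached to `D`. -/
def IsLambdaClass (W : WeilCohomology.{u, v} ops) (X : 𝒱.Obj) (D : X.Cycles)
    (τ : W.H (X.prod X)) : Prop :=
  τ ∈ W.gr (X.prod X) (2 * (X.dim - 1)) ∧
    IsLam (W.gr X) X.dim (LinearMap.mulLeft W.K (W.cl X D)) (W.corr τ)

/-- The smallest property of cohomology classes of degree `2 j` on the varieties `Z` which holds for
the classes of algebraic cycles and for the class on `X × X` which induces the operator `Λ` attached
to `D`, and which is stable under linear combinations, products, pull-backs and push-forwards. -/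
inductive LamGen (W : WeilCohomology.{u, v} ops) (X : 𝒱.Obj) (D : X.Cycles) :
    ∀ Z : 𝒱.Obj, ℕ → W.H Z → Prop
  | lam {τ : W.H (X.prod X)} : IsLambdaClass W X D τ → LamGen W X D (X.prod X) (X.dim - 1) τ
  | cl {Z : 𝒱.Obj} {j : ℕ} {z : Z.Cycles} : Z.IsCyc j z → LamGen W X D Z j (W.cl Z z)
  | zero {Z : 𝒱.Obj} {j : ℕ} : LamGen W X D Z j 0
  | add {Z : 𝒱.Obj} {j : ℕ} {a b : W.H Z} : LamGen W X D Z j a → LamGen W X D Z j b →
      LamGen W X D Z j (a + b)
  | smul {Z : 𝒱.Obj} {j : ℕ} (r : W.K) {a : W.H Z} : LamGen W X D Z j a →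
      LamGen W X D Z j (r • a)
  | mul {Z : 𝒱.Obj} {i j : ℕ} {a b : W.H Z} : LamGen W X D Z i a → LamGen W X D Z j b →
      LamGen W X D Z (i + j) (a * b)
  | pull {Z Z' : 𝒱.Obj} (f : Z ⟶ Z') {j : ℕ} {a : W.H Z'} : LamGen W X D Z' j a →
      LamGen W X D Z j (W.map f a)
  | push {Z Z' : 𝒱.Obj} (f : Z ⟶ Z') {j l : ℕ} (h : l + Z.dim = j + Z'.dim) {a : W.H Z} :
      LamGen W X D Z j a → LamGen W X D Z' l (W.push f a)

open Pool.Agent.Y133.Half (pw dimBy)

/-- All classes on all powers of `X` which are generated by the algebraic classes and the class of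
`Λ` are `K`-linear combinations of classes of algebraic cycles. -/
def LamAlgebraic (W : WeilCohomology.{u, v} ops) (X : 𝒱.Obj) (D : X.Cycles) : Prop :=
  ∀ n j c, LamGen W X D (pw X n) j c → c ∈ spanCycles W (pw X n) j

/-- The dimension of the space of the classes on the product of `n + 1` copies of `X` which are
generated by the algebraic classes and the class of `Λ`. -/
noncomputable def lamDim (W : WeilCohomology.{u, v} ops) (X : 𝒱.Obj) (D : X.Cycles) (n : ℕ) : ℕ :=
  dimBy W (LamGen W X D) (pw X n)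

/-- The quotients `a n / b n` tend to zero. -/
def QuotToZero (a b : ℕ → ℕ) : Prop :=
  Filter.Tendsto (fun n => (a n : ℝ) / (b n : ℝ)) Filter.atTop (nhds 0)

end Pool.Agent.Q82.MH
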