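import Pool.Agent.Q82.MH.Ops
import Pool.Agent.Q82.MH.Defs
import Pool.Agent.Y133.Half.Hdg
import Pool.Agent.Y133.Half.Abs
import Pool.Agent.Y133.Half.DLaw

/-!
# The half law for the classes generated by the algebraic classes and the class of `Λ`
-/

set_option autoImplicit false

open CategoryTheory AlgebraicGeometry Finset Filter Topology

universe u v

namespace Pool.Agent.Q82.MH

open Pool.Agent.H914 Pool.Agent.H447 Pool.Agent.TH132.A Pool.Agent.H914.VarClass
  Pool.Agent.H914.VarClass.Obj Pool.Agent.H914.WeilCohomology Pool.Agent.H281R3.HT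
open Pool.Agent.Y133.Half (ClassPred pw Sys cycRank algDim AtMostHalf dimBy algSys dimOf)
open Pool.Agent.Y133.Hdg (HodgeStr IsHodge hodgePred)

section Alg

variable {K : Type*} [Field K] {V : Type*} [AddCommGroup V] [Module K V]
variable {gr : ℕ → Submodule K V} {n : ℕ} {L : Module.End K V}

lemma isLam_unique (h : DirectSum.IsInternal gr) (hL : IsHom gr 2 L)
    (hbd : ∀ i, 2 * n + 1 ≤ i → gr i = ⊥) (hHL : HardLef gr n L) {Φ Ψ : Module.End K V}
    (h1 : IsLam gr n L Φ) (h2 : IsLam gr n L Ψ) : Φ = Ψ := by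
  apply LinearMap.ext
  refine lef_induction' h hL hbd hHL ?_ ?_
  · intro a b ha hb
    rw [map_add, map_add, ha, hb]
  · intro i hi a ha hp j
    have hz : ∀ e, n - i < e → (L ^ e) a = 0 := by
      intro e he
      rw [show e = (e - (n - i + 1)) + (n - i + 1) by omega, pow_add, Module.End.mul_apply, hp,
        map_zero]
    rcases Nat.eq_zero_or_pos j with rfl | hj
    · rw [pow_zero, Module.End.one_apply, (h1 i hi a ha hp).1, (h2 i hi a ha hp).1]
    · by_cases hji : j ≤ n - i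
      · obtain ⟨l, rfl⟩ : ∃ l, j = l + 1 := ⟨j - 1, by omega⟩
        rw [(h1 i hi a ha hp).2 l (by omega), (h2 i hi a ha hp).2 l (by omega)]
      · rw [hz j (by omega), map_zero, map_zero]

end Alg

variable {k : Type u} [Field k] {𝒱 : VarClass k} {ops : CycleOps 𝒱}
  {W : WeilCohomology.{u, v} ops} {X Y Z : 𝒱.Obj} {D : X.Cycles}

lemma LamGen.gr {j : ℕ} {c : W.H Z} (h : LamGen W X D Z j c) : c ∈ W.gr Z (2 * j) := by
  induction h with
  | lam h => exact h.1
  | cl hz => exact W.cl_mem hz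
  | zero => exact Submodule.zero_mem _
  | add _ _ h1 h2 => exact Submodule.add_mem _ h1 h2
  | smul r _ h => exact Submodule.smul_mem _ _ h
  | mul _ _ h1 h2 =>
    rw [Nat.mul_add]
    exact W.mul_mem h1 h2
  | pull f _ h => exact W.map_mem f h
  | push f hl _ h =>
    have h2 := W.push_mem f h
    rwa [show ((2 * _ : ℕ) : ℤ) + 2 * (_ - _) = ((2 * _ : ℕ) : ℤ) from ?_, grZ_natCast] at h2
    push_cast
    omega

/-- The classes generated by the algebraic classes and the class of `Λ`. -/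
def lamPred (W : WeilCohomology.{u, v} ops) (X : 𝒱.Obj) (D : X.Cycles) : ClassPred W where
  P := LamGen W X D
  gr h := h.gr
  zero := LamGen.zero
  add := LamGen.add
  smul := LamGen.smul
  cl := LamGen.cl
  mul := LamGen.mul
  map f _ _ h := h.pull f
  push f _ _ hl _ h := h.push f hl

lemma LamGen.le {Q : ClassPred W} (hQ : ∀ τ, IsLambdaClass W X D τ → Q.P (X.prod X) (X.dim - 1) τ)
    {j : ℕ} {c : W.H Z} (h : LamGen W X D Z j c) : Q.P Z j c := by
  induction h with
  | lam h => exact hQ _ h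
  | cl hz => exact Q.cl hz
  | zero => exact Q.zero
  | add _ _ h1 h2 => exact Q.add h1 h2
  | smul r _ h => exact Q.smul r h
  | mul _ _ h1 h2 => exact Q.mul h1 h2
  | pull f _ h => exact Q.map f h
  | push f hl _ h => exact Q.push f hl h

lemma corr_ext {a b : W.H (X.prod X)} (hab : W.corr (k := k) (X := X) (Y := X) a = W.corr b) :
    a = b := by
  rw [← sub_eq_zero]
  apply corr_inj
  rw [corr_sub', hab, sub_self]

lemma mulLeft_hom (hD : X.IsCyc 1 D) :
    IsHom (W.gr X) 2 (LinearMap.mulLeft W.K (W.cl X D)) := by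
  simpa using rop_opAlg.hom (rop_mulLeft (W := W) hD)

/-- The algebra of all homogeneous operators. -/
lemma hom_opAlg : OpAlg (W.gr X) (fun d (y : Module.End W.K (W.H X)) => IsHom (W.gr X) (2 * d) y) where
  one := isHom_one
  zero d := isHom_zero _
  add h h' := h.add h'
  smul q _ _ h := h.smul _
  mul := by
    intro d e y z h h'
    have := h.mul h'
    rwa [show 2 * d + 2 * e = 2 * (d + e) by ring] at this
  hom h := h

/-- The class which induces `Λ` exists and is unique. -/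
theorem existsUnique_lambdaClass (hn : 1 ≤ X.dim) (hD : X.IsCyc 1 D)
    (hHL : HardLefschetz W X D) : ∃! τ, IsLambdaClass W X D τ := by
  have hLh := mulLeft_hom (W := W) hD
  obtain ⟨Φ, hΦ, hLam⟩ := hom_opAlg.exists_lam (W.isInternal X) W_hbd
    (L := LinearMap.mulLeft W.K (W.cl X D)) (by simpa using hLh) hHL (by
      intro c hc
      obtain ⟨T, hT⟩ := exists_isInv (W.isInternal X) hLh hHL hc
      exact ⟨T, hT.isHom (W.isInternal X) hHL hc, hT.1⟩)
  obtain ⟨τ, hτ⟩ := exists_corr (W := W) (X := X) (Y := X) Φ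
  refine ⟨τ, ⟨mem_gr_of_isHom ?_, by rw [hτ]; exact hLam⟩, ?_⟩
  · rw [hτ, show 2 * (((X.dim - 1 : ℕ) : ℤ) - X.dim) = 2 * -1 by omega]
    exact hΦ
  · rintro τ' ⟨-, h'⟩
    apply corr_ext
    rw [hτ]
    exact isLam_unique (W.isInternal X) hLh W_hbd hHL h' hLam

variable {Q : ClassPred W}

/-- If the lowering operator is given by a class with the property `Q` then so is `Λ`. -/
lemma lambda_mem (hn : 1 ≤ X.dim) (hD : X.IsCyc 1 D) (hHL : HardLefschetz W X D)
    {f : Module.End W.K (W.H X)} (t : Low W X D f) (hf : QOp Q X (-1) f) :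
    ∀ τ, IsLambdaClass W X D τ → Q.P (X.prod X) (X.dim - 1) τ := by
  rintro τ ⟨-, hτ⟩
  have hLh := mulLeft_hom (W := W) hD
  have hL := QOp.of_rop (Q := Q) (rop_mulLeft (W := W) hD)
  obtain ⟨Φ, hΦ, hLam⟩ := qop_opAlg.exists_lam (W.isInternal X) W_hbd hL hHL (by
    intro c hc
    obtain ⟨ν, hν, hνi⟩ := inj_of_low t hf c hc
    obtain ⟨θ, hθ, hθi⟩ := qop_opAlg.exists_theta_of_inj
      (L := LinearMap.mulLeft W.K (W.cl X D)) (Submodule.subset_span hL) hHL (c := c) hc
      (ν := ν) (Submodule.subset_span hν) hνi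
    exact ⟨θ, QOp.of_ks hθ, hθi⟩)
  obtain ⟨c, hc, hcΦ⟩ := QOp.exists_class (p := X.dim - 1) (by omega) hΦ
  have : τ = c := by
    apply corr_ext
    rw [hcΦ]
    exact isLam_unique (W.isInternal X) hLh W_hbd hHL hτ hLam
  rw [this]
  exact hc

/-- If `Λ` is given by a class with the property `Q` then so is the lowering operator. -/
lemma low_mem (hn : 1 ≤ X.dim) (hD : X.IsCyc 1 D) (hHL : HardLefschetz W X D)
    (hQ : ∀ τ, IsLambdaClass W X D τ → Q.P (X.prod X) (X.dim - 1) τ) :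
    ∃ f, Low W X D f ∧ QOp Q X (-1) f := by
  have hLh := mulLeft_hom (W := W) hD
  obtain ⟨f, t, hf, hfv⟩ := exists_sl2 (W.isInternal X) hLh W_hbd hHL
  obtain ⟨τ, hτ, -⟩ := existsUnique_lambdaClass (W := W) hn hD hHL
  refine ⟨f, t, lower_of_lam qop_opAlg (W.isInternal X) W_hbd
    (QOp.of_rop (Q := Q) (rop_mulLeft (W := W) hD)) hHL (Φ := W.corr τ)
    (QOp.corr (by omega) (hQ τ hτ)) hτ.2 hfv⟩

/-- Hard Lefschetz on the square. -/
lemma hard_square (hD : X.IsCyc 1 D) (hHL : HardLefschetz W X D) :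
    HardLefschetz W (X.prod X) (boxSum ops D) := by
  obtain ⟨f, tf⟩ := exists_low hD hHL
  have t := low_prod hD tf tf
  refine hardLefschetz_of_inj (SmVar.IsCyc.add (ops.pull_mem _ hD) (ops.pull_mem _ hD))
    fun i hi a ha h0 => ?_
  by_contra ha0
  refine Sl2.e_pow_inj t (x := a) (M := (X.prod X).dim - i) ?_ ha0 le_rfl h0
  rw [wt, scal_apply _ _ ha, node]
  congr 1
  rw [Nat.cast_sub hi]
  push_cast
  ring

/-- The lowering operator is given by a class with the property `Q` if the Lefschetz isomorphism in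
codimension `n - 1` on the square is surjective on such classes. -/
lemma low_of_lift (hn : 1 ≤ X.dim) (hD : X.IsCyc 1 D) (hHL : HardLefschetz W X D)
    (hlift : ∀ v, Q.P (X.prod X) (X.dim + 1) v → ∃ x, Q.P (X.prod X) (X.dim - 1) x ∧
      W.cl _ (boxSum ops D) ^ 2 * x = v) : ∃ f, Low W X D f ∧ QOp Q X (-1) f := by
  have hLh := mulLeft_hom (W := W) hD
  obtain ⟨f, t, hf, -⟩ := exists_sl2 (W.isInternal X) hLh W_hbd hHL
  refine ⟨f, t, lower_mem_of_surj qop_opAlg (W.isInternal X) W_hbd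
    (QOp.of_rop (Q := Q) (rop_mulLeft (W := W) hD)) hHL t hf ?_⟩
  intro y hy
  obtain ⟨v, hv, rfl⟩ := QOp.exists_class (p := X.dim + 1) (by push_cast; ring) hy
  obtain ⟨x, hx, hxv⟩ := hlift v hv
  refine ⟨W.corr x, QOp.corr (by omega) hx, ?_⟩
  rw [← corr_boxSum_pow hD, LinearMap.pow_mulLeft, LinearMap.mulLeft_apply, hxv]

section Hodge

variable [Algebra W.K ℝ] {Ψ : HodgeStr W}

lemma hodge_lambda (hn : 1 ≤ X.dim) (hD : X.IsCyc 1 D) (hHL : HardLefschetz W X D) :
    ∀ τ, IsLambdaClass W X D τ → (hodgePred Ψ).P (X.prod X) (X.dim - 1) τ := by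
  obtain ⟨f, t, hf⟩ := low_of_lift (Q := hodgePred Ψ) hn hD hHL (by
    intro v hv
    have h1 := Pool.Agent.Y133.Abs.hodge_lift Ψ (X := X.prod X) (D := boxSum ops D)
      (SmVar.IsCyc.add (ops.pull_mem _ hD) (ops.pull_mem _ hD)) (hard_square hD hHL)
      (j := X.dim - 1) (by rw [dim_prod]; omega) (c := v)
      (by rw [dim_prod, show X.dim + X.dim - (X.dim - 1) = X.dim + 1 by omega]; exact hv)
    rw [dim_prod, show X.dim + X.dim - 2 * (X.dim - 1) = 2 by omega] at h1
    exact h1)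
  exact lambda_mem hn hD hHL t hf

/-- The pairing on the generated classes is nondegenerate. -/
theorem nondeg (hn : 1 ≤ X.dim) (hD : X.IsCyc 1 D) (hHL : HardLefschetz W X D)
    (Ψ : HodgeStr W) (n : ℕ) : (lamPred W X D).sys.Nondeg (pw X n) := by
  obtain ⟨f, t, hf⟩ := low_mem (Q := lamPred W X D) hn hD hHL (fun τ h => LamGen.lam h)
  obtain ⟨E, g, -, tg, hg⟩ := low_pw hD t hf n
  obtain ⟨_, ⟨D', hD', rfl⟩, hpol⟩ := Ψ.polar (pw X n)
  have hHR : (lamPred W X D).HR (pw X n) D' := by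
    refine ⟨hD', ?_, ?_⟩
    · intro j hj v hv
      exact lift_of_inj hD' hpol.hard (inj_of_low tg hg) hj hv
    · intro j hj x hx
      have h1 : IsHodge Ψ (pw X n) j x := LamGen.le (Q := hodgePred Ψ) (hodge_lambda hn hD hHL) hx
      exact hpol.pos j hj x h1.1 h1.2
  exact hHR.nondeg

end Hodge

/-- The algebraic classes. -/
noncomputable def algPred (W : WeilCohomology.{u, v} ops) : ClassPred W where
  P Z j c := c ∈ algSpan W Z ∧ c ∈ W.gr Z (2 * j)
  gr h := h.2
  zero := ⟨Submodule.zero_mem _, Submodule.zero_mem _⟩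
  add h h' := ⟨Submodule.add_mem _ h.1 h'.1, Submodule.add_mem _ h.2 h'.2⟩
  smul r _ h := ⟨Submodule.smul_mem _ _ h.1, Submodule.smul_mem _ _ h.2⟩
  cl hz := ⟨Pool.Agent.Y129.span_le_algSpan _ (mem_span_cl hz), W.cl_mem hz⟩
  mul h h' := ⟨(algSys W).mul h.1 h'.1, by rw [Nat.mul_add]; exact W.mul_mem h.2 h'.2⟩
  map f _ _ h := ⟨(algSys W).map f h.1, W.map_mem f h.2⟩
  push {X Y} f {j l} hl a h := by
    refine ⟨(algSys W).push f h.1, ?_⟩
    have h2 := W.push_mem f h.2
    rwa [show ((2 * j : ℕ) : ℤ) + 2 * ((Y.dim : ℤ) - X.dim) = ((2 * l : ℕ) : ℤ) by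
      push_cast; omega, grZ_natCast] at h2

theorem lamAlgebraic_of_B (hD : X.IsCyc 1 D) (hHL : HardLefschetz W X D)
    (hB : LefschetzB W X D) : LamAlgebraic W X D := by
  intro n j c hc
  have h1 : (algPred W).P (pw X n) j c := by
    refine LamGen.le (Q := algPred W) ?_ hc
    rintro τ ⟨h1, h2⟩
    obtain ⟨z, hz, hz'⟩ := hB
    have : τ = W.cl _ z := corr_ext
      (isLam_unique (W.isInternal X) (mulLeft_hom (W := W) hD) W_hbd hHL h2 hz')
    rw [this]
    exact (algPred W).cl hz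
  exact Pool.Agent.Y133.Half.spanCycles_of_algSpan h1.1 h1.2

theorem B_of_lamAlgebraic (hn : 1 ≤ X.dim) (hD : X.IsCyc 1 D) (hHL : HardLefschetz W X D)
    (h : ∀ c, LamGen W X D (X.prod X) (X.dim - 1) c → c ∈ spanCycles W (X.prod X) ((X.dim - 1 : ℕ) : ℤ)) :
    LefschetzB W X D := by
  obtain ⟨τ, hτ, -⟩ := existsUnique_lambdaClass (W := W) hn hD hHL
  apply ((lefschetzB_tfae hD hHL).out 1 0).1
  refine ⟨τ, ?_, hτ.2⟩
  have := h τ (LamGen.lam hτ)
  rwa [show ((X.dim - 1 : ℕ) : ℤ) = (X.dim : ℤ) - 1 by omega] at this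

theorem B_of_homEqNum (hn : 1 ≤ X.dim) (hD : X.IsCyc 1 D) (hHL : HardLefschetz W X D)
    (h : HomEqNum W (X.prod X)) : LefschetzB W X D := by
  apply lefschetzB_of_homEqNumIn hD hHL
  intro z hz hw
  exact h (X.dim + 1) (by rw [dim_prod]; omega) z hz hw

lemma lamDim_eq (n : ℕ) : lamDim W X D n =
    Module.finrank W.K ((lamPred W X D).sys.C (pw X n)) := rfl

lemma algDim_le (n : ℕ) : algDim W (pw X n) ≤ lamDim W X D n := by
  rw [lamDim_eq, Pool.Agent.Y133.Half.algDim_eq]
  exact Submodule.finrank_mono (ClassPred.alg_le (Q := lamPred W X D))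

lemma lamDim_of_alg (h : LamAlgebraic W X D) (n : ℕ) : lamDim W X D n = algDim W (pw X n) := by
  rw [lamDim_eq, Pool.Agent.Y133.Half.algDim_eq,
    (ClassPred.sp_eq_iff (Q := lamPred W X D) (pw X n)).2 (h n)]

lemma quot_mono {a b c : ℕ → ℕ} (h : QuotToZero a b) (hbc : ∀ n, b n ≤ c n)
    (hb : ∀ n, 0 < b n) : QuotToZero a c := by
  refine squeeze_zero (fun n => by positivity) (fun n => ?_) h
  have h1 : (0 : ℝ) < b n := by exact_mod_cast hb n
  have h2 : (b n : ℝ) ≤ c n := by exact_mod_cast hbc n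
  exact div_le_div_of_nonneg_left (Nat.cast_nonneg _) h1 h2

/-- **The zero-one law.** -/
theorem zero_one [Nontrivial (W.H X)] (hn : 1 ≤ X.dim) (hD : X.IsCyc 1 D)
    (hHL : HardLefschetz W X D) :
    (LefschetzB W X D ∧ (∀ n, HomEqNum W (pw X n)) ∧
      ∀ n, lamDim W X D n = cycRank ops (pw X n)) ∨
    (¬ (LefschetzB W X D ∧ ∀ n, HomEqNum W (pw X n)) ∧
      QuotToZero (fun n => cycRank ops (pw X n)) (fun n => lamDim W X D n)) := by
  by_cases h : ∀ n, HomEqNum W (pw X n)
  · left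
    have hB := B_of_homEqNum hn hD hHL (h 1)
    refine ⟨hB, h, fun n => ?_⟩
    rw [lamDim_of_alg (lamAlgebraic_of_B hD hHL hB), Pool.Agent.Y133.Half.algDim_eq]
    exact ((Pool.Agent.Y133.Half.homEqNum_iff' (pw X n)).1 (h n)).symm
  · right
    refine ⟨fun h' => h h'.2, ?_⟩
    rcases Pool.Agent.Y133.Half.d_law W X with h1 | h1
    · exact absurd h1 h
    · refine quot_mono h1 algDim_le fun n => ?_
      rw [Pool.Agent.Y133.Half.algDim_eq]
      exact (algSys W).finrank_pos_pw n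

/-- **The half law.** -/
theorem half_law [Nontrivial (W.H X)] (hn : 1 ≤ X.dim) (hD : X.IsCyc 1 D)
    (hHL : HardLefschetz W X D) [Algebra W.K ℝ] (Ψ : HodgeStr W) :
    (LefschetzB W X D ∧ LamAlgebraic W X D ∧ ∀ n, HomEqNum W (pw X n)) ∨
    (¬ LefschetzB W X D ∧
      AtMostHalf (fun n => algDim W (pw X n)) (fun n => lamDim W X D n) ∧
      QuotToZero (fun n => cycRank ops (pw X n)) (fun n => algDim W (pw X n))) := by
  have hnd := nondeg (W := W) hn hD hHL Ψ
  by_cases hB : LefschetzB W X D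
  · left
    have hA := lamAlgebraic_of_B hD hHL hB
    refine ⟨hB, hA, fun n => ?_⟩
    rw [Pool.Agent.Y133.Half.homEqNum_iff, eq_bot_iff]
    rintro c ⟨hc1, hc2⟩
    rw [Submodule.mem_bot]
    have e1 := (ClassPred.sp_eq_iff (Q := lamPred W X D) (pw X n)).2 (hA n)
    refine hnd n c (ClassPred.alg_le hc1) fun y hy => hc2 y ?_
    rw [e1] at hy
    exact hy
  · right
    refine ⟨hB, ?_, ?_⟩
    · rcases (algSys W).half (lamPred W X D).sys (fun _ => ClassPred.alg_le) X hnd with h | h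
      · exfalso
        apply hB
        apply B_of_lamAlgebraic hn hD hHL
        intro c hc
        exact (ClassPred.sp_eq_iff (Q := lamPred W X D) (pw X 1)).1 (h 1).symm _ c hc
      · intro ε hε
        obtain ⟨n₀, hn₀⟩ := h ε hε
        refine ⟨n₀, fun n hn => ?_⟩
        have := hn₀ n hn
        change (algDim W (pw X n) : ℝ) ≤ (1 / 2 + ε) * (lamDim W X D n : ℝ)
        rw [lamDim_eq, Pool.Agent.Y133.Half.algDim_eq]
        exact this
    · rcases Pool.Agent.Y133.Half.d_law W X with h1 | h1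
      · exact absurd (B_of_homEqNum hn hD hHL (h1 1)) hB
      · exact h1

end Pool.Agent.Q82.MH
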