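import Pool.Agent.Y133.Half.PairPred
import Pool.Agent.TH132.A.HLf
import Pool.Agent.H447R3.AoC

/-!
# The operators given by a class of cohomology classes
-/

set_option autoImplicit false

open CategoryTheory AlgebraicGeometry Finset

universe u v

namespace Pool.Agent.Q82.MH

open Pool.Agent.H914 Pool.Agent.H447 Pool.Agent.TH132.A Pool.Agent.H914.VarClass
  Pool.Agent.H914.VarClass.Obj Pool.Agent.H914.WeilCohomology
open Pool.Agent.Y133.Half (ClassPred pw Sys)

section Alg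

variable {K : Type*} [Field K] {V : Type*} [AddCommGroup V] [Module K V]
variable {gr : ℕ → Submodule K V} {n : ℕ} {L : Module.End K V}

lemma mem_grZ_of_proj (h : DirectSum.IsInternal gr) {N : ℕ} (hbd : ∀ i, N ≤ i → gr i = ⊥) {v : V}
    {m : ℤ} (hz : ∀ j : ℕ, (j : ℤ) ≠ m → proj h j v = 0) : v ∈ grZ gr m := by
  have h4 : ∑ l ∈ range N, proj h l v = v := by
    have := congrArg (fun F => F v) (sum_proj h (N := N) hbd)
    simpa using this
  rw [← h4]
  apply Submodule.sum_mem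
  intro j _
  by_cases hj : (j : ℤ) = m
  · rw [← hj, grZ_natCast]
    exact H914.proj_mem h j v
  · rw [hz j hj]
    exact Submodule.zero_mem _

lemma proj_wt [CharZero K] (h : DirectSum.IsInternal gr) (j : ℕ) (v : V) :
    proj h j (wt h n v) = ((node n j : ℚ) : K) • proj h j v := by
  have : proj h j * wt h n = ((node n j : ℚ) : K) • proj h j := by
    apply gr_ext h
    intro i a ha
    rw [Module.End.mul_apply, wt, scal_apply h _ ha, map_smul, LinearMap.smul_apply]
    by_cases hij : i = j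
    · rw [hij]
    · rw [proj_ne h ha hij, smul_zero, smul_zero]
  have h2 := congrArg (fun F => F v) this
  simpa using h2

/-- The lowering operator is homogeneous. -/
lemma isHom_of_sl2 [CharZero K] (h : DirectSum.IsInternal gr)
    (hbd : ∀ i, 2 * n + 1 ≤ i → gr i = ⊥)
    {f : Module.End K V} (t : Sl2 (wt h n) L f) : IsHom gr (-2) f := by
  intro i a ha
  by_cases hi : 0 ≤ i
  · lift i to ℕ using hi
    rw [grZ_natCast] at ha
    apply mem_grZ_of_proj h hbd
    intro j hj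
    have h1 := congrArg (fun F => F a) t.hf
    simp only [LinearMap.sub_apply, Module.End.mul_apply, LinearMap.neg_apply, two_mul,
      LinearMap.add_apply] at h1
    have h0 : wt h n a = ((node n i : ℚ) : K) • a := by
      rw [wt, scal_apply h _ ha]
    rw [h0, map_smul] at h1
    have h2 := congrArg (fun v => proj h j v) h1
    simp only [map_sub, map_smul, map_neg, map_add, proj_wt] at h2
    have h3 : (((j : ℤ) - ((i : ℤ) + -2) : ℤ) : K) • proj h j (f a) = 0 := by
      have h5 : (((j : ℤ) - ((i : ℤ) + -2) : ℤ) : K) =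
          ((node n j : ℚ) : K) - ((node n i : ℚ) : K) + 2 := by
        rw [node, node]
        push_cast
        ring
      rw [h5, add_smul, sub_smul, h2, two_smul]
      abel
    rcases smul_eq_zero.1 h3 with h6 | h6
    · exact absurd (sub_eq_zero.1 (Int.cast_eq_zero.1 h6)) hj
    · exact h6
  · rw [grZ_of_neg (by omega)] at ha
    rw [(Submodule.mem_bot _).1 ha, map_zero]
    exact Submodule.zero_mem _

end Alg

variable {k : Type u} [Field k] {𝒱 : VarClass k} {ops : CycleOps 𝒱}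
  {W : WeilCohomology.{u, v} ops} {X Y Z : 𝒱.Obj} {Q : ClassPred W}

/-- The operators of degree `2 d` given by the classes with the property `Q`. -/
def QOp (Q : ClassPred W) (Z : 𝒱.Obj) (d : ℤ) (y : Module.End W.K (W.H Z)) : Prop :=
  y ∈ Q.sys.Op Z Z ∧ IsHom (W.gr Z) (2 * d) y

lemma QOp.ksmul {d : ℤ} {y : Module.End W.K (W.H Z)} (c : W.K) (hy : QOp Q Z d y) :
    QOp Q Z d (c • y) := ⟨Submodule.smul_mem _ _ hy.1, hy.2.smul c⟩

lemma qop_opAlg : OpAlg (W.gr Z) (QOp Q Z) where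
  one := ⟨Sys.Op.id, isHom_one⟩
  zero d := ⟨Submodule.zero_mem _, isHom_zero _⟩
  add h h' := ⟨Submodule.add_mem _ h.1 h'.1, h.2.add h'.2⟩
  smul q _ _ h := h.ksmul _
  mul := by
    intro d e y z h h'
    refine ⟨Sys.Op.comp h.1 h'.1, ?_⟩
    have := h.2.mul h'.2
    rwa [show 2 * d + 2 * e = 2 * (d + e) by ring] at this
  hom h := h.2

lemma QOp.of_ks {d : ℤ} {y : Module.End W.K (W.H Z)} (hy : y ∈ KS (QOp Q Z) d) : QOp Q Z d y := by
  induction hy using Submodule.span_induction with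
  | mem x hx => exact hx
  | zero => exact qop_opAlg.zero _
  | add x y _ _ hx hy => exact qop_opAlg.add hx hy
  | smul a x _ hx => exact hx.ksmul a

lemma QOp.corr {p : ℕ} {d : ℤ} (hd : (p : ℤ) = Z.dim + d) {c : W.H (Z.prod Z)}
    (hc : Q.P (Z.prod Z) p c) : QOp Q Z d (W.corr c) := by
  refine ⟨Sys.Op.corr (ClassPred.sp_of hc), ?_⟩
  have := W.corr_isHom (Q.gr hc)
  rwa [show 2 * ((p : ℤ) - Z.dim) = 2 * d by omega] at this

lemma QOp.exists_class {p : ℕ} {d : ℤ} (hd : (p : ℤ) = Z.dim + d)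
    {y : Module.End W.K (W.H Z)} (hy : QOp Q Z d y) : ∃ c, Q.P (Z.prod Z) p c ∧ W.corr c = y := by
  obtain ⟨c, hc, rfl⟩ := Sys.mem_Op.1 hy.1
  refine ⟨c, ClassPred.of_sp hc (mem_gr_of_isHom ?_), rfl⟩
  rw [show 2 * ((p : ℤ) - Z.dim) = 2 * d by omega]
  exact hy.2

lemma QOp.of_rop {d : ℤ} {y : Module.End W.K (W.H Z)} (hy : ROp W Z d y) : QOp Q Z d y := by
  obtain ⟨Y, ⟨q, hq, z, hz, hY⟩ | ⟨-, hY⟩, rfl⟩ := hy
  · rw [hY]
    exact QOp.corr hq (Q.cl hz)
  · rw [hY]
    exact qop_opAlg.zero _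

/-- The operators map classes with the property to such classes. -/
lemma QOp.apply {p q : ℕ} {d : ℤ} (hd : (q : ℤ) = p + d) {y : Module.End W.K (W.H Z)}
    (hy : QOp Q Z d y) {v : W.H Z} (hv : Q.P Z p v) : Q.P Z q (y v) := by
  apply ClassPred.of_sp
  · exact Sys.Op.apply (T := Q.sys) (fun _ => le_rfl) hy.1 (ClassPred.sp_of hv)
  · have := hy.2 (2 * p : ℕ) v (by rw [grZ_natCast]; exact Q.gr hv)
    rwa [show ((2 * p : ℕ) : ℤ) + 2 * d = ((2 * q : ℕ) : ℤ) by push_cast; omega,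
      grZ_natCast] at this

/-- The Lefschetz isomorphisms for all divisors are isomorphisms on the classes with the property. -/
lemma lift_of_inj {D : Z.Cycles} (hD : Z.IsCyc 1 D) (hHL : HardLefschetz W Z D)
    (hinj : ∀ c ≤ Z.dim, ∃ ν, QOp Q Z (-c) ν ∧ ∀ a ∈ W.gr Z (Z.dim + c), ν a = 0 → a = 0)
    {j : ℕ} (hj : 2 * j ≤ Z.dim) {v : W.H Z} (hv : Q.P Z (Z.dim - j) v) :
    ∃ x, Q.P Z j x ∧ W.cl Z D ^ (Z.dim - 2 * j) * x = v := by
  set c := Z.dim - 2 * j with hc
  obtain ⟨ν, hν, hνi⟩ := hinj c (by omega)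
  obtain ⟨θ, hθ, hθi⟩ := qop_opAlg.exists_theta_of_inj (L := LinearMap.mulLeft W.K (W.cl Z D))
    (Submodule.subset_span (QOp.of_rop (Q := Q) (rop_mulLeft hD))) hHL (c := c) (by omega)
    (ν := ν) (Submodule.subset_span hν) hνi
  obtain ⟨x, hx, hxv⟩ := (hHL (2 * j) hj).2 v (by
    have := Q.gr hv
    rwa [show 2 * (Z.dim - j) = 2 * Z.dim - 2 * j by omega] at this)
  have h1 : θ v = x := by
    rw [← hxv]
    apply hθi
    rwa [show Z.dim - c = 2 * j by omega]
  refine ⟨x, ?_, ?_⟩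
  · rw [← h1]
    exact QOp.apply (by omega) (QOp.of_ks hθ) hv
  · rw [LinearMap.pow_mulLeft, LinearMap.mulLeft_apply] at hxv
    exact hxv

/-- The powers of the lowering operator are injective. -/
lemma inj_of_low {D : Z.Cycles} {f : Module.End W.K (W.H Z)} (t : Low W Z D f)
    (hf : QOp Q Z (-1) f) :
    ∀ c ≤ Z.dim, ∃ ν, QOp Q Z (-c) ν ∧ ∀ a ∈ W.gr Z (Z.dim + c), ν a = 0 → a = 0 := by
  intro c _
  refine ⟨f ^ c, qop_opAlg.cast (qop_opAlg.pow hf c) (by ring), ?_⟩
  intro a ha h0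
  apply f_pow_inj t _ h0
  rw [wt, scal_apply _ _ ha]
  congr 1
  rw [node]
  push_cast; ring

/-- The lowering operator on the powers. -/
theorem low_pw {D : X.Cycles} (hD : X.IsCyc 1 D) {f : Module.End W.K (W.H X)}
    (t : Low W X D f) (hf : QOp Q X (-1) f) (n : ℕ) : ∃ (E : (pw X n).Cycles) (g : _),
      (pw X n).IsCyc 1 E ∧ Low W (pw X n) E g ∧ QOp Q (pw X n) (-1) g := by
  induction n with
  | zero => exact ⟨D, f, hD, t, hf⟩
  | succ n ih =>
    obtain ⟨E, g, hE, tg, hg⟩ := ih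
    have t2 : Low W ((pw X n).prod X) (ops.pull (fst (pw X n) X) E + ops.pull (snd (pw X n) X) D)
        (extSum W g f) := low_prod hD tg t
    refine ⟨_, _, SmVar.IsCyc.add (ops.pull_mem _ hE) (ops.pull_mem _ hD), t2, ?_, ?_⟩
    · exact Submodule.add_mem _ (Sys.Op.ext hg.1 Sys.Op.id) (Sys.Op.ext Sys.Op.id hf.1)
    · have h2 : IsHom (W.gr ((pw X n).prod X)) (2 * -1) (extSum W g f) := by
        simpa using isHom_of_sl2 (W.isInternal _) W_hbd t2
      exact h2

end Pool.Agent.Q82.MH
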